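import Pool.Agent.helper27.RA.SpecC
import Pool.Agent.helper34.P2A.MQ
import Pool.Agent.helper63.RS.SpecT

/-!
# ra:MQT (MP_70a088_an, rational class, block A_R, part 3): the differential inequality of one stage for `f^T`, `T ≤ t` (helper32; after Pool/Agent/helper88/RA/MQ.lean)
-/

set_option autoImplicit false

open Complex Metric Set Filter Topology MeasureTheory
open HY (UD T S hd UN RM)
open RT
open PL (cm BS DQ)
open RB (VL LO FLS FL CLS FR TL TLL INN WIN DRT)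

noncomputable section

namespace RA

/-- factorization of the hyperbolic derivative. -/
theorem MQT_fac (hTHC : RT.THC_stmt) (hTSP : RT.TSP_stmt) (hVIT : RS.VIT_stmt) (hVPB : RS.VPB_stmt) (hVCF : RS.VCF_stmt) (Y : Dyn) (s : ℝ) (hS : Sys Y s)
    (N i j : ℕ) (hij : i ≤ j) (hj : j ≤ N) (p : ℂ) (hp : p ∈ Y.J) (z : ℂ) (hz : z ∈ VC Y Y.U N p) :
    hdf (it Y j) (VC Y Y.U N p) (VC Y Y.U (N - j) (it Y j p)) z =
      hdf (it Y i) (VC Y Y.U N p) (VC Y Y.U (N - i) (it Y i p)) z * hdf (it Y (j - i)) (VC Y Y.U (N - i) (it Y i p)) (VC Y Y.U (N - j) (it Y j p)) (it Y i z) ∧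
    0 ≤ hdf (it Y i) (VC Y Y.U N p) (VC Y Y.U (N - i) (it Y i p)) z ∧ hdf (it Y i) (VC Y Y.U N p) (VC Y Y.U (N - i) (it Y i p)) z ≤ 1 ∧
    0 ≤ hdf (it Y (j - i)) (VC Y Y.U (N - i) (it Y i p)) (VC Y Y.U (N - j) (it Y j p)) (it Y i z) ∧
    hdf (it Y (j - i)) (VC Y Y.U (N - i) (it Y i p)) (VC Y Y.U (N - j) (it Y j p)) (it Y i z) ≤ 1 := by
  obtain ⟨-, -, -, -, -, hJP⟩ := hVPB Y s 0 0 hS.ok Y.U hS.lv
  obtain ⟨hit1, -, -, -, -, hitJ⟩ := hVIT Y s 0 0 hS.ok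
  have hVC := fun (j : ℕ) (b : ℂ) (hb : b ∈ Y.J) => hVCF Y s 0 0 hS.ok Y.U hS.lv j b (hJP j hb)
  have h0 := hVC N p hp
  have hiJ : it Y i p ∈ Y.J := (hitJ p hp i).2
  have hjJ : it Y j p ∈ Y.J := (hitJ p hp j).2
  have h1 := hVC (N - i) (it Y i p) hiJ
  have h2 := hVC (N - j) (it Y j p) hjJ
  have hm1 : MapsTo (it Y i) (VC Y Y.U N p) (VC Y Y.U (N - i) (it Y i p)) := h0.2.2.2.2.2.2.1 i (by omega)
  have hd1 : DifferentiableOn ℂ (it Y i) (VC Y Y.U N p) := h0.2.2.2.2.2.2.2.1 i (by omega)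
  have hm2 : MapsTo (it Y (j - i)) (VC Y Y.U (N - i) (it Y i p)) (VC Y Y.U (N - j) (it Y j p)) := by
    have h3 := h1.2.2.2.2.2.2.1 (j - i) (by omega)
    have e1 : it Y (j - i) (it Y i p) = it Y j p := by
      rw [← hit1, show j - i + i = j by omega]
    rw [e1, show N - i - (j - i) = N - j by omega] at h3
    exact h3
  have hd2 : DifferentiableOn ℂ (it Y (j - i)) (VC Y Y.U (N - i) (it Y i p)) := h1.2.2.2.2.2.2.2.1 (j - i) (by omega)
  have hch := hTHC s _ _ _ (it Y i) (it Y (j - i)) h0.1 h1.1 h2.1 hd1 hd2 hm1 hm2 z hz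
  have hfe : (fun w => it Y (j - i) (it Y i w)) = it Y j := by
    funext w
    rw [← hit1, show j - i + i = j by omega]
  rw [hfe] at hch
  have s1 := hTSP s _ _ (it Y i) h0.1 h1.1 hd1 hm1 z hz
  have s2 := hTSP s _ _ (it Y (j - i)) h1.1 h2.1 hd2 hm2 (it Y i z) (hm1 hz)
  exact ⟨hch, s1.2.1, s1.2.2.1, s2.2.1, s2.2.2.1⟩

/-- **MQT** -/
theorem MQT (hPIM : PIM_stmt) (hFST : FST_stmt) (hOST : OST_stmt) (hHVB : HVB_stmt) (hLHD : LHD_stmt) (hUGR : UGR_stmt) (hNSP : NSP_stmt)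
    (hGDS : GDS_stmt) (hLCH : LCH_stmt) (hACH : ACH_stmt)
    (hTKO : RT.TKO_stmt) (hTIN : RT.TIN_stmt) (hTHC : RT.THC_stmt) (hTSP : RT.TSP_stmt) (hTDF : RT.TDF_stmt) (hVIT : RS.VIT_stmt) (hVPB : RS.VPB_stmt) (hVCF : RS.VCF_stmt) : MQT_stmt := by
  intro Y s hS μ hIB P hCLS a b₀ ρ α ha hb₀ hρ hα
  have hs0 : 0 < s := hS.ok.s0
  have hs1 : s ≤ 1 := by
    have := hS.ok.s1
    linarith
  -- constants
  obtain ⟨C, η, L₀, b', kF, hC1, hη, hL₀, hb', hF⟩ := hFST Y s hS μ hIB P hCLS a b₀ ha hb₀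
  obtain ⟨CU, hCU, hU⟩ := hUGR s hs0 hs1
  obtain ⟨δ, hδ0, hδ1, hN⟩ := hNSP s b' (α / 4) hs0 hs1 hb' (by positivity)
  obtain ⟨c₀, hc₀, hO⟩ := hOST Y s hS b₀ (α / 8) hb₀ (by positivity)
  obtain ⟨c₁, hc₁d⟩ : ∃ c₁ : ℝ, c₁ = min c₀ 1 := ⟨_, rfl⟩
  have hc₁0 : 0 < c₁ := by rw [hc₁d]; exact lt_min hc₀ one_pos
  have hc₁1 : c₁ ≤ 1 := by rw [hc₁d]; exact min_le_right _ _
  have hc₁c : c₁ ≤ c₀ := by rw [hc₁d]; exact min_le_left _ _
  obtain ⟨A, hAd⟩ : ∃ A : ℝ, A = Real.exp (4 * CU / α) := ⟨_, rfl⟩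
  have hlogA : Real.log A = 4 * CU / α := by rw [hAd, Real.log_exp]
  have hA1 : 1 < A := by
    rw [hAd]
    exact Real.one_lt_exp_iff.2 (by positivity)
  have hCA : CU / Real.log A = α / 4 := by
    rw [hlogA]
    field_simp
  obtain ⟨L₁, hL₁d⟩ : ∃ L₁ : ℝ, L₁ = max L₀ (A / η) := ⟨_, rfl⟩
  have hL₁L₀ : L₀ ≤ L₁ := by rw [hL₁d]; exact le_max_left _ _
  have hL₁A : A ≤ η * L₁ := by
    have h1 : A / η ≤ L₁ := by rw [hL₁d]; exact le_max_right _ _
    rw [div_le_iff₀ hη] at h1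
    linarith
  have hL₁1 : 1 ≤ L₁ := hL₀.trans hL₁L₀
  obtain ⟨K₀, hK₀, -, hKρ⟩ := hTKO s hs0 hs1
  obtain ⟨C₂, hC₂, hC₂'⟩ := hKρ (3 / 4) (by norm_num) (by norm_num)
  obtain ⟨L, hLd⟩ : ∃ L : ℝ, L = C₂ * (L₁ * C₂) := ⟨_, rfl⟩
  have hL₁L : L₁ ≤ L := by
    rw [hLd]
    have h1 : L₁ * 1 ≤ L₁ * C₂ := mul_le_mul_of_nonneg_left hC₂ (by linarith)
    have h2 : 1 * (L₁ * C₂) ≤ C₂ * (L₁ * C₂) := mul_le_mul_of_nonneg_right hC₂ (by nlinarith)
    linarith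
  have hL1 : 1 ≤ L := hL₁1.trans hL₁L
  obtain ⟨b₁, hb₁, kH, hH⟩ := hHVB Y s hS μ hIB P hCLS a b₀ L₁ ha hb₀ hL₁1
  obtain ⟨K, hK, hLC⟩ := hLCH Y s hS
  obtain ⟨ρ', hρ'⟩ : ∃ ρ' : ℝ, ρ' = max ρ 0 := ⟨_, rfl⟩
  have hρ'0 : 0 ≤ ρ' := by rw [hρ']; exact le_max_right _ _
  have hρρ' : ρ ≤ ρ' := by rw [hρ']; exact le_max_left _ _
  have hρ'1 : ρ' < 1 := by rw [hρ']; exact max_lt hρ one_pos
  obtain ⟨ρ₂, hρ₂0, hρ₂1, hP⟩ := hPIM Y s hS ρ' hρ'1
  have hd1 : 0 < 8 * ((Y.d : ℝ) + 1) := by positivity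
  refine ⟨L, hL1, ?_⟩
  intro e he
  obtain ⟨M, hM, hG⟩ := hGDS Y s hS b₁ L₁ e ρ₂ (α / (8 * ((Y.d : ℝ) + 1))) hb₁ hL₁1 he hρ₂0 hρ₂1 (by positivity)
  have h1ρ : 0 < 1 - ρ' ^ 2 := by nlinarith
  refine ⟨(1 - ρ' ^ 2) * (δ / C * c₁ * Real.exp (-(K * M)) * c₁), max kF kH, by positivity, ?_⟩
  intro k hk x n t τ hxJ hkn hτt hWIN p hpJ hpV hpd hhd hNR F hLF κ hκ r hr hr1
  have hkF : kF ≤ k := (le_max_left _ _).trans hk
  have hkH : kH ≤ k := (le_max_right _ _).trans hk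
  -- the levels
  obtain ⟨-, -, -, -, -, hJP⟩ := hVPB Y s 0 0 hS.ok Y.U hS.lv
  obtain ⟨hit1, -, -, -, -, hitJ⟩ := hVIT Y s 0 0 hS.ok
  have hVC := fun (j : ℕ) (b : ℂ) (hb : b ∈ Y.J) => hVCF Y s 0 0 hS.ok Y.U hS.lv j b (hJP j hb)
  have hlev : ∀ v ≤ t, p ∈ VL Y (n + v) x ∧ VL Y (n + v) p = VL Y (n + v) x ∧ cr (VL Y (n + v) x) x ≤ C₂ * cv Y n p v ∧
      cv Y n p v ≤ C₂ * cr (VL Y (n + v) x) x := by
    intro v hv
    have hx1 := hVC (n + v) x hxJ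
    have hx2 := hVC (n + t) x hxJ
    have hsub : VL Y (n + t) x ⊆ VL Y (n + v) x := hx2.2.2.2.2.2.1 (n + v) (by omega)
    have hp1 := hsub hpV
    have heq : VL Y (n + v) p = VL Y (n + v) x := hx1.2.2.2.1 p hp1
    have hpd1 : pd (VL Y (n + v) x) x p ≤ 3 / 4 := ((hTIN s _ _ hs0 hx2.1 hx1.1 hsub x hx2.2.1).2 p).1.trans hpd
    have h3 := (hC₂' (VL Y (n + v) x) hx1.1 x hx1.2.1).1 p hp1 hpd1
    have h4 : cv Y n p v = cr (VL Y (n + v) x) p := by
      unfold cv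
      rw [show VC Y Y.U (n + v) p = VL Y (n + v) x from heq]
    rw [h4]
    exact ⟨hp1, heq, h3.2.2, h3.2.1⟩
  obtain ⟨hDV, hpV', -, hVpe, hsym, -, hmap, hdif, -, -, -⟩ := hVC (n + t) p hpJ
  have hxV : x ∈ VC Y Y.U (n + t) p := (hsym x).2 hpV
  have hVeq : VC Y Y.U (n + t) x = VC Y Y.U (n + t) p := hVpe x hxV
  have hmapt : MapsTo (it Y t) (VC Y Y.U (n + t) p) (VC Y Y.U n (it Y t p)) := by
    have h1 := hmap t (Nat.le_add_left t n)
    rwa [Nat.add_sub_cancel] at h1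
  have hq : it Y t x ∈ VC Y Y.U n (it Y t p) := hmapt hxV
  have hptJ : it Y t p ∈ Y.J := (hitJ p hpJ t).2
  have hXeq : VC Y Y.U n (it Y t x) = VC Y Y.U n (it Y t p) := (hVC n (it Y t p) hptJ).2.2.2.1 _ hq
  have hhv : b₀ ≤ hv Y n p t := by
    unfold hv
    have h1 := hhd
    simp only [VL] at h1
    rw [hVeq, hXeq] at h1
    exact h1
  obtain ⟨hA1', hA2', -, -, -, -⟩ := hACH Y s hS p hpJ n
  obtain ⟨-, hAx2, -, -, -, -⟩ := hACH Y s hS x hxJ n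
  have hct0 : 0 < cv Y n p t := (hA1' t).1
  -- the time T₀
  have hex : ∃ T : ℕ, cv Y n p T ≤ L₁ * cv Y n p t := ⟨t, by nlinarith⟩
  classical
  obtain ⟨T₀, hT₀d⟩ : ∃ T₀ : ℕ, T₀ = Nat.find hex := ⟨_, rfl⟩
  have hT₀s : cv Y n p T₀ ≤ L₁ * cv Y n p t := by rw [hT₀d]; exact Nat.find_spec hex
  have hT₀t : T₀ ≤ t := by
    rw [hT₀d]
    exact Nat.find_min' hex (by nlinarith)
  have hcvmon : ∀ v, T₀ ≤ v → cv Y n p v ≤ L₁ * cv Y n p t := fun v hv => (hA2' T₀ v hv).trans hT₀s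
  have hwin : ∀ v ≤ t, T₀ ≤ v + 1 → P k x (n + v) ∧ LO Y x a n v := by
    intro v hvt hTv
    apply hWIN v hvt
    have h1 : cr (VL Y (n + v + 1) x) x ≤ cr (VL Y (n + T₀) x) x := hAx2 T₀ (v + 1) hTv
    have h2 := (hlev T₀ hT₀t).2.2.1
    have h3 := (hlev t le_rfl).2.2.2
    calc cr (VL Y (n + v + 1) x) x ≤ C₂ * cv Y n p T₀ := h1.trans h2
      _ ≤ C₂ * (L₁ * cv Y n p t) := mul_le_mul_of_nonneg_left hT₀s (by linarith)
      _ ≤ C₂ * (L₁ * (C₂ * cr (VL Y (n + t) x) x)) := mul_le_mul_of_nonneg_left (mul_le_mul_of_nonneg_left h3 (by linarith)) (by linarith)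
      _ = L * cr (VL Y (n + t) x) x := by rw [hLd]; ring
  -- the domains
  obtain ⟨V, hVd⟩ : ∃ V : Set ℂ, V = VC Y Y.U (n + t) p := ⟨_, rfl⟩
  have hDV' : TD s V := by rw [hVd]; exact hDV
  have hpVV : p ∈ V := by rw [hVd]; exact hpV'
  obtain ⟨-, -, -, -, -, -, hTV⟩ := hTDF s V hDV' p hpVV
  have hcrpos : ∀ z ∈ V, 0 < cr V z := fun z hz => (hTDF s V hDV' z hz).2.1
  -- the first factor
  have hfirst : ∃ Q : ℂ → Prop, volume {θ : ℝ | θ ∈ Ioc (0 : ℝ) (2 * Real.pi) ∧ Q (cm r θ)} ≤ ENNReal.ofReal (α / 4) + ENNReal.ofReal (α / 4) + ENNReal.ofReal (α / 8) ∧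
      ∀ u ∈ UD, ¬ Q u → δ / C * c₁ ≤ hdf (it Y T₀) V (VC Y Y.U (n + t - T₀) (it Y T₀ p)) (rm V p u) := by
    by_cases hT0 : T₀ = 0
    · refine ⟨fun _ => False, ?_, ?_⟩
      · simp
      · intro u hu _
        subst hT0
        have h1 : hdf (it Y 0) V (VC Y Y.U (n + t - 0) (it Y 0 p)) (rm V p u) = 1 := by
          have h2 : (it Y 0 : ℂ → ℂ) = fun z => z := by
            funext z
            rfl
          have h3 : VC Y Y.U (n + t - 0) (it Y 0 p) = V := by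
            rw [hVd]
            rfl
          unfold hdf
          rw [h3, h2]
          simp only [deriv_id'', norm_one, one_mul]
          exact div_self (hcrpos _ (hTV u hu).1).ne'
        rw [h1]
        have h4 : δ / C ≤ 1 := by
          rw [div_le_one (by linarith)]
          linarith
        have h5 : 0 ≤ δ / C := by positivity
        nlinarith
    · obtain ⟨T₁, hT₁⟩ : ∃ T₁ : ℕ, T₀ = T₁ + 1 := ⟨T₀ - 1, by omega⟩
      have hprev : L₁ * cv Y n p t < cv Y n p T₁ := by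
        have h1 : ¬ (cv Y n p T₁ ≤ L₁ * cv Y n p t) := by
          refine Nat.find_min hex ?_
          rw [← hT₀d]
          omega
        exact not_le.1 h1
      obtain ⟨hP1, hLO1⟩ := hwin T₁ (by omega) (by omega)
      obtain ⟨q₀, hq₀, hq₁⟩ := hF k hkF x n t hkn p hpJ hpV hpd hhv L₁ T₁ hL₁L₀ (by omega) hP1 hLO1 hprev.le
      have hVd' : VL Y (n + t) p = V := hVd.symm
      rw [hVd'] at hq₀ hq₁
      refine ⟨fun u => (A * cr V p ≤ ‖rm V p u - p‖ ∨ pd V (rm V p u) q₀ < δ) ∨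
        hdf Y.f (VL Y (n + t - T₁) (it Y T₁ p)) (VL Y (n + t - (T₁ + 1)) (it Y (T₁ + 1) p)) (it Y T₁ (rm V p u)) < c₀, ?_, ?_⟩
      · have h1 := hU V hDV' p hpVV A r hA1 hr hr1
        rw [hCA] at h1
        have h2 := hN V hDV' p hpVV q₀ r hq₀ hr hr1
        have h2' := hO p hpJ n t T₁ (by omega) hhv r hr hr1
        rw [hVd'] at h2'
        have h3 : {θ : ℝ | θ ∈ Ioc (0 : ℝ) (2 * Real.pi) ∧ ((A * cr V p ≤ ‖rm V p (cm r θ) - p‖ ∨ pd V (rm V p (cm r θ)) q₀ < δ) ∨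
            hdf Y.f (VL Y (n + t - T₁) (it Y T₁ p)) (VL Y (n + t - (T₁ + 1)) (it Y (T₁ + 1) p)) (it Y T₁ (rm V p (cm r θ))) < c₀)} ⊆
            ({θ : ℝ | θ ∈ Ioc (0 : ℝ) (2 * Real.pi) ∧ A * cr V p ≤ ‖rm V p (cm r θ) - p‖} ∪
            {θ : ℝ | θ ∈ Ioc (0 : ℝ) (2 * Real.pi) ∧ pd V (rm V p (cm r θ)) q₀ < δ}) ∪
            {θ : ℝ | θ ∈ Ioc (0 : ℝ) (2 * Real.pi) ∧ hdf Y.f (VL Y (n + t - T₁) (it Y T₁ p)) (VL Y (n + t - (T₁ + 1)) (it Y (T₁ + 1) p)) (it Y T₁ (rm V p (cm r θ))) < c₀} := by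
          rintro θ ⟨h4, (h5 | h5) | h5⟩
          · exact Or.inl (Or.inl ⟨h4, h5⟩)
          · exact Or.inl (Or.inr ⟨h4, h5⟩)
          · exact Or.inr ⟨h4, h5⟩
        exact (measure_mono h3).trans ((measure_union_le _ _).trans (add_le_add ((measure_union_le _ _).trans (add_le_add h1 h2)) h2'))
      · intro u hu hnQ
        push Not at hnQ
        obtain ⟨⟨h1, h2⟩, h2'⟩ := hnQ
        have hz := (hTV u hu).1
        have h3 : ‖rm V p u - p‖ ≤ η * L₁ * cv Y n p t := by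
          have h4 : cr V p = cv Y n p t := by
            rw [hVd]
            rfl
          rw [h4] at h1
          have h5 : A * cv Y n p t ≤ η * L₁ * cv Y n p t := mul_le_mul_of_nonneg_right hL₁A hct0.le
          linarith
        have h4 := hq₁ (rm V p u) hz h3
        have h5 : δ / C ≤ hdf (it Y T₁) V (VL Y (n + t - T₁) (it Y T₁ p)) (rm V p u) := by
          rw [div_le_iff₀ (by linarith)]
          linarith
        -- the chain rule
        have hT₁J : it Y T₁ p ∈ Y.J := (hitJ p hpJ T₁).2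
        have hW1 := hVC (n + t - T₁) (it Y T₁ p) hT₁J
        have hT₁J' : it Y (T₁ + 1) p ∈ Y.J := (hitJ p hpJ (T₁ + 1)).2
        have hW2 := hVC (n + t - (T₁ + 1)) (it Y (T₁ + 1) p) hT₁J'
        have hit : (it Y 1 : ℂ → ℂ) = Y.f := by
          funext z
          rfl
        have hitp : Y.f (it Y T₁ p) = it Y (T₁ + 1) p := by
          unfold it
          rw [Function.iterate_succ_apply']
        have hm1 : MapsTo (it Y T₁) V (VL Y (n + t - T₁) (it Y T₁ p)) := by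
          rw [hVd]
          exact hmap T₁ (by omega)
        have hm2 : MapsTo Y.f (VL Y (n + t - T₁) (it Y T₁ p)) (VL Y (n + t - (T₁ + 1)) (it Y (T₁ + 1) p)) := by
          have h6 := hW1.2.2.2.2.2.2.1 1 (by omega)
          rw [hit, hitp, show n + t - T₁ - 1 = n + t - (T₁ + 1) by omega] at h6
          exact h6
        have hd1 : DifferentiableOn ℂ (it Y T₁) V := by
          rw [hVd]
          exact hdif T₁ (by omega)
        have hd2 : DifferentiableOn ℂ Y.f (VL Y (n + t - T₁) (it Y T₁ p)) := by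
          have h6 := hW1.2.2.2.2.2.2.2.1 1 (by omega)
          rw [hit] at h6
          exact h6
        have hch := hTHC s V (VL Y (n + t - T₁) (it Y T₁ p)) (VL Y (n + t - (T₁ + 1)) (it Y (T₁ + 1) p)) (it Y T₁) Y.f hDV' hW1.1 hW2.1 hd1 hd2 hm1 hm2 (rm V p u) hz
        have hfe : (fun z => Y.f (it Y T₁ z)) = it Y (T₁ + 1) := by
          funext z
          unfold it
          rw [Function.iterate_succ_apply']
        rw [hfe] at hch
        rw [hT₁]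
        have hgoal : δ / C * c₁ ≤ hdf (it Y (T₁ + 1)) V (VL Y (n + t - (T₁ + 1)) (it Y (T₁ + 1) p)) (rm V p u) := by
          rw [hch]
          exact mul_le_mul h5 (hc₁c.trans h2') hc₁0.le (le_trans (by positivity) h5)
        exact hgoal
  obtain ⟨Q, hQ1, hQ2⟩ := hfirst
  -- the factors after `T₀`
  have hrest : ∃ B : ℂ → Prop, volume {θ : ℝ | θ ∈ Ioc (0 : ℝ) (2 * Real.pi) ∧ B (cm r θ)} ≤ ENNReal.ofReal (α / 8) + ENNReal.ofReal (α / 8) ∧
      ∀ u ∈ UD, ¬ Q u → ¬ B u → pd (VC Y Y.U (n + t - τ) (it Y τ p)) (it Y τ x) (it Y τ (rm V p u)) ≤ ρ' →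
        δ / C * c₁ * Real.exp (-(K * M)) * c₁ ≤ hdf (it Y τ) V (VC Y Y.U (n + t - τ) (it Y τ p)) (rm V p u) := by
    have hexp1 : Real.exp (-(K * M)) ≤ 1 := by
      rw [Real.exp_le_one_iff]
      have : 0 < K * M := mul_pos hK hM
      linarith
    have hexp0 : 0 < Real.exp (-(K * M)) := Real.exp_pos _
    have hdc0 : 0 ≤ δ / C * c₁ := by positivity
    by_cases hτT : τ ≤ T₀
    · refine ⟨fun _ => False, by simp, ?_⟩
      intro u hu hQu _ _
      have h1 := hQ2 u hu hQu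
      have h2 := MQT_fac hTHC hTSP hVIT hVPB hVCF Y s hS (n + t) τ T₀ hτT (by omega) p hpJ (rm V p u) (by rw [← hVd]; exact (hTV u hu).1)
      rw [← hVd] at h2
      obtain ⟨h3, h4, h5, h6, h7⟩ := h2
      rw [h3] at h1
      have h8 : hdf (it Y τ) V (VC Y Y.U (n + t - τ) (it Y τ p)) (rm V p u) * hdf (it Y (T₀ - τ)) (VC Y Y.U (n + t - τ) (it Y τ p)) (VC Y Y.U (n + t - T₀) (it Y T₀ p)) (it Y τ (rm V p u)) ≤
          hdf (it Y τ) V (VC Y Y.U (n + t - τ) (it Y τ p)) (rm V p u) := mul_le_of_le_one_right h4 h7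
      have h9 : δ / C * c₁ * Real.exp (-(K * M)) ≤ δ / C * c₁ := mul_le_of_le_one_right hdc0 hexp1
      have h10 : δ / C * c₁ * Real.exp (-(K * M)) * c₁ ≤ δ / C * c₁ * Real.exp (-(K * M)) := mul_le_of_le_one_right (by positivity) hc₁1
      linarith
    · obtain ⟨τ', hτ'⟩ : ∃ τ' : ℕ, τ = τ' + 1 := ⟨τ - 1, by omega⟩
      subst hτ'
      have hT₀τ : T₀ ≤ τ' := by omega
      obtain ⟨m, hm⟩ : ∃ m : ℕ, n + t = m + 1 + τ' := ⟨n + t - (τ' + 1), by omega⟩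
      have e1 : n + t - (τ' + 1) = m := by omega
      have e2 : n + t - τ' = m + 1 := by omega
      have hnm : n ≤ m := by omega
      have hJ' : it Y τ' p ∈ Y.J := (hitJ p hpJ τ').2
      have hf1 : ∀ w : ℂ, Y.f (it Y τ' w) = it Y (τ' + 1) w := by
        intro w
        unfold it
        rw [Function.iterate_succ_apply']
      -- the hyperbolic derivative at `p`
      have hhv' : b₀ ≤ hv Y (m + 1) p τ' := by
        have h1 := MQT_fac hTHC hTSP hVIT hVPB hVCF Y s hS (n + t) τ' t (by omega) (by omega) p hpJ p hpV'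
        rw [show n + t - t = n by omega] at h1
        obtain ⟨h3, h4, h5, h6, h7⟩ := h1
        unfold hv at hhv ⊢
        rw [h3, e2] at hhv
        rw [← hm]
        rw [e2] at h4
        exact hhv.trans (mul_le_of_le_one_right h4 (by rw [e2] at h7; exact h7))
      have hcveq : ∀ v v' : ℕ, m + 1 + v = n + v' → cv Y (m + 1) p v = cv Y n p v' := by
        intro v v' hvv
        unfold cv
        rw [hvv]
      have hWN : WN Y (m + 1) τ' T₀ p b₁ L₁ e := by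
        refine ⟨hpJ, hT₀τ, ?_, ?_, ?_⟩
        · intro v hv1 hv2
          obtain ⟨v'', hv''⟩ : ∃ v'' : ℕ, n + v'' = m + 1 + v := ⟨m + 1 + v - n, by omega⟩
          obtain ⟨h1, h2⟩ := hwin v'' (by omega) (by omega)
          have h3 : LO Y x a (m + 1) v := by
            obtain ⟨z, hz1, hz2, hz3⟩ := h2
            refine ⟨z, ?_, ?_, ?_⟩
            · rw [← hv'']
              exact hz1
            · rw [← hv'']
              exact hz2
            · have h4 := MQT_fac hTHC hTSP hVIT hVPB hVCF Y s hS (n + v'') v v'' (by omega) (by omega) x hxJ z hz1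
              rw [show n + v'' - v'' = n by omega, show n + v'' - v = m + 1 by omega] at h4
              obtain ⟨h5, h6, h7, h8, h9⟩ := h4
              rw [← hv'']
              simp only [VL] at hz3 ⊢
              rw [h5] at hz3
              exact hz3.trans (mul_le_of_le_one_right h6 h9)
          rw [hv''] at h1
          have h5 : cv Y (m + 1) p v ≤ L₁ * cv Y (m + 1) p τ' := by
            rw [hcveq v v'' hv''.symm, hcveq τ' t hm.symm]
            exact hcvmon v'' (by omega)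
          exact hH k hkH x (m + 1) τ' (by omega) p hpJ (by rw [← hm]; exact hpV) (by rw [← hm]; exact hpd) hhv' v hv2 h1 h3 h5
        · obtain ⟨v'', hv''⟩ : ∃ v'' : ℕ, n + v'' = m + 1 + T₀ := ⟨m + 1 + T₀ - n, by omega⟩
          rw [hcveq T₀ v'' hv''.symm, hcveq τ' t hm.symm]
          exact hcvmon v'' (by omega)
        · intro u v hu huv hvt hret
          refine hNR u v huv (by omega) ?_ ?_
          · have h1 := hcvmon u hu
            have h2 : L₁ * cv Y n p t ≤ L * cv Y n p t := mul_le_mul_of_nonneg_right hL₁L hct0.le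
            exact h1.trans h2
          · obtain ⟨h1, h2⟩ := hret
            refine ⟨?_, h2⟩
            rw [e1]
            have huJ : it Y u p ∈ Y.J := (hitJ p hpJ u).2
            have g1 := hVC (m + 1) (it Y u p) huJ
            have g2 := hVC m (it Y u p) huJ
            exact ((hTIN s _ _ hs0 g1.1 g2.1 (g1.2.2.2.2.2.1 m (by omega)) (it Y u p) g1.2.1).2 (it Y v p)).1.trans h1
      -- the preimages
      have hxΩ : it Y (τ' + 1) x ∈ VC Y Y.U m (it Y (τ' + 1) p) := by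
        have h1 := hmap (τ' + 1) (by omega) hxV
        rwa [e1] at h1
      obtain ⟨Q', hQc, hQm, hQp⟩ := hP m (it Y τ' p) (hJP (m + 1) hJ') (it Y (τ' + 1) x) (by rw [hf1]; exact hxΩ)
      have hWq : ∀ q ∈ Q', VC Y Y.U (m + 1) q = VC Y Y.U (m + 1) (it Y τ' p) := fun q hq => (hVC (m + 1) (it Y τ' p) hJ').2.2.2.1 q (hQm q hq)
      obtain ⟨R, hRd⟩ : ∃ R : ℂ → ℂ → Prop, R = fun q u => pd (VC Y Y.U (m + 1) q) q (it Y τ' (rm (VC Y Y.U (m + 1 + τ') p) p u)) ≤ ρ₂ ∧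
          ¬ ((∀ T, T₀ ≤ T → T < τ' → ∀ c ∈ Y.CP, 0 < bl (VC Y Y.U (m + 1 + τ' - T) (it Y T p)) (it Y T (rm (VC Y Y.U (m + 1 + τ') p) p u)) c) ∧
            LS Y (m + 1) τ' T₀ p (rm (VC Y Y.U (m + 1 + τ') p) p u) ≤ M) := ⟨_, rfl⟩
      have hRm : ∀ q ∈ Q', volume {θ : ℝ | θ ∈ Ioc (0 : ℝ) (2 * Real.pi) ∧ R q (cm r θ)} ≤ ENNReal.ofReal (α / (8 * ((Y.d : ℝ) + 1))) := by
        intro q hq
        rw [hRd]
        exact hG (m + 1) τ' T₀ p hWN q (hQm q hq) r hr hr1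
      refine ⟨fun u => hdf Y.f (VL Y (n + t - τ') (it Y τ' p)) (VL Y (n + t - (τ' + 1)) (it Y (τ' + 1) p)) (it Y τ' (rm (VL Y (n + t) p) p u)) < c₀ ∨ ∃ q ∈ Q', R q u, ?_, ?_⟩
      · have h1 := hO p hpJ n t τ' (by omega) hhv r hr hr1
        have h2 : volume (⋃ q ∈ Q', {θ : ℝ | θ ∈ Ioc (0 : ℝ) (2 * Real.pi) ∧ R q (cm r θ)}) ≤ ENNReal.ofReal (α / 8) := by
          refine (measure_biUnion_finset_le Q' _).trans ?_
          refine (Finset.sum_le_sum hRm).trans ?_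
          rw [Finset.sum_const, nsmul_eq_mul, ← ENNReal.ofReal_natCast, ← ENNReal.ofReal_mul (Nat.cast_nonneg _)]
          apply ENNReal.ofReal_le_ofReal
          have h3 : (Q'.card : ℝ) ≤ (Y.d : ℝ) + 1 := by
            have : (Q'.card : ℝ) ≤ (Y.d : ℝ) := by exact_mod_cast hQc
            linarith
          calc (Q'.card : ℝ) * (α / (8 * ((Y.d : ℝ) + 1))) ≤ ((Y.d : ℝ) + 1) * (α / (8 * ((Y.d : ℝ) + 1))) := mul_le_mul_of_nonneg_right h3 (by positivity)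
            _ = α / 8 := by
              have : (Y.d : ℝ) + 1 ≠ 0 := by positivity
              field_simp
        have h3 : {θ : ℝ | θ ∈ Ioc (0 : ℝ) (2 * Real.pi) ∧ (hdf Y.f (VL Y (n + t - τ') (it Y τ' p)) (VL Y (n + t - (τ' + 1)) (it Y (τ' + 1) p)) (it Y τ' (rm (VL Y (n + t) p) p (cm r θ))) < c₀ ∨
            ∃ q ∈ Q', R q (cm r θ))} ⊆
            {θ : ℝ | θ ∈ Ioc (0 : ℝ) (2 * Real.pi) ∧ hdf Y.f (VL Y (n + t - τ') (it Y τ' p)) (VL Y (n + t - (τ' + 1)) (it Y (τ' + 1) p)) (it Y τ' (rm (VL Y (n + t) p) p (cm r θ))) < c₀} ∪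
            ⋃ q ∈ Q', {θ : ℝ | θ ∈ Ioc (0 : ℝ) (2 * Real.pi) ∧ R q (cm r θ)} := by
          rintro θ ⟨h4, h5 | ⟨q, hq, h5⟩⟩
          · exact Or.inl ⟨h4, h5⟩
          · refine Or.inr ?_
            rw [mem_iUnion₂]
            exact ⟨q, hq, h4, h5⟩
        exact (measure_mono h3).trans ((measure_union_le _ _).trans (add_le_add h1 h2))
      · intro u hu hQu hBu hpdu
        push Not at hBu
        obtain ⟨hB1, hB2⟩ := hBu
        have hzV : rm V p u ∈ VC Y Y.U (n + t) p := by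
          rw [← hVd]
          exact (hTV u hu).1
        have hVL : VL Y (n + t) p = V := hVd.symm
        rw [hVL] at hB1
        have hzW : it Y τ' (rm V p u) ∈ VC Y Y.U (m + 1) (it Y τ' p) := by
          have h1 := hmap τ' (by omega) hzV
          rwa [e2] at h1
        obtain ⟨q, hq, hqp⟩ := hQp (it Y τ' (rm V p u)) hzW (by rw [hf1, hf1]; rw [e1] at hpdu; exact hpdu)
        have hRq := hB2 q hq
        rw [hRd] at hRq
        simp only at hRq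
        rw [← hm, ← hVd, hWq q hq] at hRq
        obtain ⟨hpos, hLS⟩ := not_not.1 (fun h => hRq ⟨hqp, h⟩)
        obtain ⟨hc1, hc2⟩ := hLC (m + 1) τ' T₀ p (rm V p u) hT₀τ (hJP _ hpJ) (by rw [← hm]; exact hzV) (by rw [← hm]; exact hpos)
        rw [← hm, ← hVd] at hc1
        rw [← hm] at hc2
        have hfac1 := hQ2 u hu hQu
        have hfac2 : Real.exp (-(K * M)) ≤ hdf (it Y (τ' - T₀)) (VC Y Y.U (n + t - T₀) (it Y T₀ p)) (VC Y Y.U (m + 1) (it Y τ' p)) (it Y T₀ (rm V p u)) := by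
          refine le_trans ?_ hc2
          apply Real.exp_le_exp.2
          have : K * LS Y (m + 1) τ' T₀ p (rm V p u) ≤ K * M := mul_le_mul_of_nonneg_left hLS hK.le
          linarith
        have hprod : δ / C * c₁ * Real.exp (-(K * M)) ≤ hdf (it Y τ') V (VC Y Y.U (m + 1) (it Y τ' p)) (rm V p u) := by
          rw [hc1]
          exact mul_le_mul hfac1 hfac2 (Real.exp_pos _).le (hdc0.trans hfac1)
        have h2 := MQT_fac hTHC hTSP hVIT hVPB hVCF Y s hS (n + t) τ' (τ' + 1) (by omega) (by omega) p hpJ (rm V p u) hzV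
        rw [← hVd, e2, show τ' + 1 - τ' = 1 by omega] at h2
        obtain ⟨h3, -, -, -, -⟩ := h2
        rw [h3]
        have hit : (it Y 1 : ℂ → ℂ) = Y.f := by
          funext z
          rfl
        rw [hit]
        simp only [VL] at hB1
        rw [e2] at hB1
        exact mul_le_mul hprod (hc₁c.trans hB1) hc₁0.le (le_trans (by positivity) hprod)
  obtain ⟨B, hB1, hB2⟩ := hrest
  -- the bad sets
  have hrot1 := (P2A.MQ_rot Q r κ hκ).trans hQ1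
  have hrot2 := (P2A.MQ_rot B r κ hκ).trans hB1
  have hsum : ENNReal.ofReal (α / 4) + ENNReal.ofReal (α / 4) + ENNReal.ofReal (α / 8) + (ENNReal.ofReal (α / 8) + ENNReal.ofReal (α / 8)) ≤ ENNReal.ofReal α := by
    rw [← ENNReal.ofReal_add (by positivity) (by positivity), ← ENNReal.ofReal_add (by positivity) (by positivity), ← ENNReal.ofReal_add (by positivity) (by positivity),
      ← ENNReal.ofReal_add (by positivity) (by positivity)]
    apply ENNReal.ofReal_le_ofReal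
    linarith
  -- the lift
  have hmapτ : MapsTo (it Y τ) (VC Y Y.U (n + t) p) (VC Y Y.U (n + t - τ) (it Y τ p)) := hmap τ (by omega)
  have hxτ : it Y τ x ∈ VC Y Y.U (n + t - τ) (it Y τ p) := hmapτ hxV
  have hτJ : it Y τ p ∈ Y.J := (hitJ p hpJ τ).2
  have hXτ : VC Y Y.U (n + t - τ) (it Y τ x) = VC Y Y.U (n + t - τ) (it Y τ p) := (hVC (n + t - τ) (it Y τ p) hτJ).2.2.2.1 _ hxτ
  have hmapx : MapsTo (it Y τ) (VC Y Y.U (n + t) p) (VC Y Y.U (n + t - τ) (it Y τ x)) := by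
    rw [hXτ]
    exact hmapτ
  have hqx := hVC (n + t - τ) (it Y τ x) (hitJ x hxJ τ).2
  obtain ⟨hL, -⟩ := hLHD s (VC Y Y.U (n + t) p) (VC Y Y.U (n + t - τ) (it Y τ x)) (it Y τ) hDV hqx.1 (hdif τ (by omega)) hmapx p hpV' (it Y τ x) hqx.2.1 F hLF
  refine le_trans ?_ hsum
  refine (measure_mono ?_).trans ((measure_union_le _ _).trans (add_le_add hrot1 hrot2))
  intro θ hθ
  obtain ⟨h1, h2, h3⟩ := hθ
  simp only at h2
  by_cases hQθ : Q (κ * cm r θ)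
  · exact Or.inl ⟨h1, hQθ⟩
  by_cases hBθ : B (κ * cm r θ)
  · exact Or.inr ⟨h1, hBθ⟩
  exfalso
  have hw : ‖κ * cm r θ‖ = r := by rw [norm_mul, hκ, one_mul, P2A.MQ_cm hr]
  have hwU : κ * cm r θ ∈ UD := by
    rw [HY.UD, mem_ball_zero_iff, hw]
    exact hr1
  obtain ⟨hLd1, hLd2⟩ := hL _ hwU
  have hprod := hB2 _ hwU hQθ hBθ (by
    rw [← hXτ, hVd]
    exact hLd2.trans (h2.trans hρρ'))
  rw [hVd, ← hXτ, ← hLd1, hw] at hprod
  unfold HY.hd at hprod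
  have h6 : ‖deriv (fun u => F (κ * u)) (cm r θ)‖ = ‖deriv F (κ * cm r θ)‖ := by
    rw [deriv_comp_mul_left, norm_smul, hκ, one_mul]
  rw [h6] at h3
  have h7 : ‖F (κ * cm r θ)‖ ^ 2 ≤ ρ' ^ 2 :=
    pow_le_pow_left₀ (norm_nonneg _) (h2.trans hρρ') 2
  obtain ⟨D, hD⟩ : ∃ D : ℝ, D = ‖deriv F (κ * cm r θ)‖ := ⟨_, rfl⟩
  obtain ⟨N, hNd⟩ : ∃ N : ℝ, N = ‖F (κ * cm r θ)‖ := ⟨_, rfl⟩
  rw [← hD, ← hNd] at hprod
  rw [← hD] at h3
  rw [← hNd] at h7
  have h8 : 0 < 1 - N ^ 2 := by linarith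
  have h9 : (1 - N ^ 2) * (δ / C * c₁ * Real.exp (-(K * M)) * c₁) ≤ D * (1 - r ^ 2) := by
    have h10 := mul_le_mul_of_nonneg_left hprod h8.le
    have h11 : (1 - N ^ 2) * (D / (1 - N ^ 2) * (1 - r ^ 2)) = D * (1 - r ^ 2) := by
      field_simp
    linarith
  have h10 : (1 - ρ' ^ 2) * (δ / C * c₁ * Real.exp (-(K * M)) * c₁) ≤ (1 - N ^ 2) * (δ / C * c₁ * Real.exp (-(K * M)) * c₁) :=
    mul_le_mul_of_nonneg_right (by linarith) (by positivity)
  linarith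

end RA
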